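import Pool.Agent.X35.GV.Pencil

/-!
# Dirichlet sums of the Hasse–Weil `L`-functions over ALL number fields of the members of ALL pencils `y² = f(x) - n q(x)` of elliptic and
hyperelliptic curves over `ℚ`, at all heights, for ALL integers `n` near `± α v_i`, outside a set of `α` of small dimension
-/

set_option autoImplicit false

namespace Pool.Agent.Results.MP_bf9450_nt.AllPencilsAllFields

open Finset Polynomial

/-- The trace of Frobenius `p + 1 - #C(𝔽_p)` of the curve `C : y² = f(x) - n q(x)` modulo `p` (`f` monic of odd degree greater than the degree of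
`q`, so that there is one point at infinity): `p` minus the number of the affine points. -/
noncomputable def trace (f q : ℤ[X]) (n : ℤ) (p : ℕ) : ℤ :=
  p - Nat.card {P : ZMod p × ZMod p // P.2 ^ 2 = ((f - C n * q).map (Int.castRingHom (ZMod p))).eval P.1}

open Classical in
/-- The number of the places of degree one above `p` of the number field `ℚ[Y]/(h)`, `h` monic: the number of the zeros `0 ≤ ρ < p` of `h` modulo
`p` (for irreducible `h` and `p` not dividing the discriminant of `h` they correspond to the primes `v = (p, θ - ρ)` with residue field `𝔽_p`,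
`θ` the class of `Y`). -/
noncomputable def places (h : ℤ[X]) (p : ℕ) : ℕ := ((range p).filter (fun ρ : ℕ => (p : ℤ) ∣ h.eval (ρ : ℤ))).card

/-- The sum of `a_v (log N v) (N v) ^ (- 1 / 2 - i σ)` over the places `v` of degree one of `ℚ[Y]/(h)` of odd norm `≤ x` for the curve
`y² = f(x) - n q(x)` (`a_v = a_p` for such a place above `p`). -/
noncomputable def dirichletSum (h f q : ℤ[X]) (n : ℤ) (x : ℕ) (σ : ℝ) : ℂ :=
  ∑ p ∈ (range (x + 1)).filter (fun p => p.Prime ∧ p ≠ 2),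
    ((places h p * (trace f q n p / √(p : ℝ) * Real.log p) : ℝ) : ℂ) * (p : ℂ) ^ (-(σ * Complex.I))

theorem places_le {h : ℤ[X]} (hm : h.Monic) (p : ℕ) (hp : p.Prime) : places h p ≤ h.natDegree := by
  classical
  unfold places
  have : Fact p.Prime := ⟨hp⟩
  have hmp : (h.map (Int.castRingHom (ZMod p))).Monic := hm.map _
  have h1 : ((range p).filter (fun r : ℕ => (p : ℤ) ∣ h.eval (r : ℤ))).card ≤
      (h.map (Int.castRingHom (ZMod p))).roots.toFinset.card := by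
    apply card_le_card_of_injOn (fun r : ℕ => (r : ZMod p))
    · intro r hr
      rw [mem_coe, mem_filter] at hr
      rw [mem_coe, Multiset.mem_toFinset, mem_roots hmp.ne_zero, IsRoot.def]
      have h2 : (h.map (Int.castRingHom (ZMod p))).eval ((r : ℕ) : ZMod p) = ((h.eval (r : ℤ) : ℤ) : ZMod p) := by
        simp
      rw [h2]
      exact (ZMod.intCast_zmod_eq_zero_iff_dvd _ p).2 hr.2
    · intro r hr r' hr' he
      rw [mem_coe, mem_filter, mem_range] at hr hr'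
      have h3 := (ZMod.natCast_eq_natCast_iff' r r' p).1 he
      rwa [Nat.mod_eq_of_lt hr.1, Nat.mod_eq_of_lt hr'.1] at h3
  refine h1.trans ((Multiset.toFinset_card_le _).trans ((card_roots' _).trans ?_))
  exact natDegree_map_le

/-- a polynomial in one variable as one of `MvPolynomial (Fin 1)` -/
noncomputable def up (f : ℤ[X]) : MvPolynomial (Fin 1) ℤ := Polynomial.aeval (MvPolynomial.X 0) f

lemma ev_up (p : ℕ) (f : ℤ[X]) (t : Fin 1 → ZMod p) : Pool.Agent.X35.GV.ev p (up f) t = (f.map (Int.castRingHom (ZMod p))).eval (t 0) := by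
  unfold Pool.Agent.X35.GV.ev up
  have h1 : (MvPolynomial.eval₂Hom (Int.castRingHom (ZMod p)) t) (aeval (MvPolynomial.X 0) f) =
      (f.map (Int.castRingHom (ZMod p))).eval (t 0) := by
    rw [Polynomial.aeval_def, Polynomial.hom_eval₂, Polynomial.eval_map]
    congr 1
    · exact RingHom.ext_int _ _
    · simp
  exact h1

lemma up_indep (f q : ℤ[X]) (h : ∀ a b : ℤ, C a * f = C b * q → a = 0 ∧ b = 0) (a b : ℤ)
    (hab : MvPolynomial.C a * up f = MvPolynomial.C b * up q) : a = 0 ∧ b = 0 := by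
  apply h
  have h1 := congrArg (MvPolynomial.eval₂Hom (C : ℤ →+* ℤ[X]) (fun _ : Fin 1 => (X : ℤ[X]))) hab
  have h2 : ∀ g : ℤ[X], MvPolynomial.eval₂Hom (C : ℤ →+* ℤ[X]) (fun _ : Fin 1 => (X : ℤ[X])) (up g) = g := by
    intro g
    unfold up
    rw [Polynomial.aeval_def, Polynomial.hom_eval₂]
    have e : ((MvPolynomial.eval₂Hom (C : ℤ →+* ℤ[X]) (fun _ : Fin 1 => (X : ℤ[X]))).comp (algebraMap ℤ (MvPolynomial (Fin 1) ℤ))) = C :=
      RingHom.ext_int _ _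
    rw [e]
    simp
  rw [map_mul, map_mul, h2, h2] at h1
  simpa using h1

lemma trace_eq (f q : ℤ[X]) (n : ℤ) (p : ℕ) (hp : p.Prime) (h2 : p ≠ 2) (w : ℝ) :
    (w * (trace f q n p / √(p : ℝ)) : ℝ) = -Pool.Agent.X35.GV.tot p (up f) (up q) (fun p _ => w * (p : ℝ) ^ (1 / 2 : ℝ)) n := by
  classical
  have hF := Fact.mk hp
  have hp0 : (0 : ℝ) < p := by exact_mod_cast hp.pos
  have hc : ringChar (ZMod p) ≠ 2 := by
    rw [ZMod.ringChar_zmod_n]
    exact h2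
  rw [Pool.Agent.X35.GV.tot_eq p hp]
  have h3 := Pool.Agent.H126T.card_aff hc ((f - C n * q).map (Int.castRingHom (ZMod p))) (1 : ZMod p) one_ne_zero
  simp only [one_mul, map_one] at h3
  have h4 : (trace f q n p : ℝ) = -∑ x : ZMod p, (Pool.Agent.H304R2.EC.Pts.qc p (((f - C n * q).map (Int.castRingHom (ZMod p))).eval x) : ℝ) := by
    unfold trace
    rw [h3, ZMod.card]
    push_cast
    ring
  have h5 : ∑ t : Fin 1 → ZMod p, (Pool.Agent.H304R2.EC.Pts.qc p (Pool.Agent.X35.GV.ev p (up f) t - (n : ZMod p) *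
      Pool.Agent.X35.GV.ev p (up q) t) : ℝ) * (w * (p : ℝ) ^ (1 / 2 : ℝ)) =
      (∑ x : ZMod p, (Pool.Agent.H304R2.EC.Pts.qc p (((f - C n * q).map (Int.castRingHom (ZMod p))).eval x) : ℝ)) * (w * (p : ℝ) ^ (1 / 2 : ℝ)) := by
    rw [sum_mul]
    refine Fintype.sum_equiv (Equiv.funUnique (Fin 1) (ZMod p)) _ _ fun t => ?_
    rw [ev_up, ev_up]
    congr 3
    simp
  rw [h5, h4, ← Real.sqrt_eq_rpow, pow_one]
  have hs : √(p : ℝ) ≠ 0 := (Real.sqrt_pos.2 hp0).ne'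
  have hsp : √(p : ℝ) * √(p : ℝ) = p := Real.mul_self_sqrt hp0.le
  field_simp
  rw [sq, hsp]

/-- Let `δ > 0` and `A ≥ 0`. There are `κ > 0` and `C > 0` such that for all reals `v_i ≥ 1` with `∑ v_i ^ (-u) < ∞` for all `u > τ` (`τ ≥ 0`;
for example `v_i = 2 ^ i`, `τ = 0`) and all `θ < 1` there is a set `E` of reals of Hausdorff dimension at most `(1 - κ + τ) / (1 - θ)` with the
following property. For every real `α > 0` outside `E`, ALL monic `h ∈ ℤ[Y]` (all number fields `K = ℚ[Y]/(h)`), ALL linearly independent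
`f, q ∈ ℤ[x]` with `f` monic of odd degree `> deg q`, all `i ≥ i₀(α, h, f, q)`, ALL integers `n` with `||n| - α v_i| ≤ v_i ^ θ`, ALL integers `x`
with `(log |n|) ^ C ≤ x ≤ |n| ^ κ` and ALL real `σ` with `|σ| ≤ x ^ A`, the sum of `a_v (log N v) (N v) ^ (- 1 / 2 - i σ)` over the places `v` of
degree one of `K` of odd norm `≤ x`, for the curve `y² = f(x) - n q(x)`, is at most `x ^ (1 / 2 + δ)` in absolute value. -/
theorem result (δ A : ℝ) (hδ : 0 < δ) (hA : 0 ≤ A) :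
    ∃ κ C : ℝ, 0 < κ ∧ 0 < C ∧ ∀ (v : ℕ → ℝ) (τ θ : ℝ), (∀ i, 1 ≤ v i) → 0 ≤ τ → θ < 1 →
      (∀ u : ℝ, τ < u → Summable (fun i => v i ^ (-u))) →
      ∃ E : Set ℝ, dimH E ≤ ENNReal.ofReal ((1 - κ + τ) / (1 - θ)) ∧
        ∀ α : ℝ, 0 < α → α ∉ E → ∀ h f q : ℤ[X], h.Monic → f.Monic → Odd f.natDegree → q.natDegree < f.natDegree → q ≠ 0 →
          ∃ i₀ : ℕ, ∀ i : ℕ, i₀ ≤ i → ∀ n : ℤ, |(|(n : ℝ)|) - α * v i| ≤ v i ^ θ →
            ∀ x : ℕ, Real.log |(n : ℝ)| ^ C ≤ x → (x : ℝ) ≤ |(n : ℝ)| ^ κ → ∀ σ : ℝ, |σ| ≤ (x : ℝ) ^ A →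
              ‖dirichletSum h f q n x σ‖ ≤ (x : ℝ) ^ (1 / 2 + δ) := by
  classical
  obtain ⟨W, hW1, hW2, hW3⟩ := Pool.Agent.X35.GV.heights A hA
  obtain ⟨κ, C, hκ, hC, H⟩ := Pool.Agent.X35.GV.pencil_law (δ / 2) (A + 6) (1 / 2) (by positivity) (by norm_num)
  refine ⟨κ, C, hκ, hC, fun v τ θ hv1 hτ hθ hv => ?_⟩
  let Γ : Type := {c : ℤ[X] × ℤ[X] × ℤ[X] // c.1.Monic ∧ c.2.1.Monic ∧ Odd c.2.1.natDegree ∧ c.2.2.natDegree < c.2.1.natDegree ∧ c.2.2 ≠ 0}
  have hcount : Countable Γ := by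
    have h0 := Pool.Agent.X35.GM.countable_int_poly
    exact Subtype.countable
  have hind : ∀ f q : ℤ[X], f.Monic → q.natDegree < f.natDegree → q ≠ 0 → ∀ a b : ℤ, Polynomial.C a * f = Polynomial.C b * q → a = 0 ∧ b = 0 := by
    intro f q hf hd hq a b hab
    by_cases ha : a = 0
    · subst ha
      refine ⟨rfl, ?_⟩
      rw [C_0, zero_mul] at hab
      rcases mul_eq_zero.1 hab.symm with h | h
      · exact C_eq_zero.1 h
      · exact absurd h hq
    · exfalso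
      have h1 : (Polynomial.C a * f).natDegree = f.natDegree := natDegree_C_mul ha
      have h3 : (Polynomial.C b * q).natDegree ≤ q.natDegree := natDegree_C_mul_le _ _
      rw [hab] at h1
      omega
  obtain ⟨E, hE1, hE2⟩ := H v τ θ hv1 hτ hθ hv Γ (fun c => ⟨1, up c.1.2.1, up c.1.2.2⟩)
    (fun c => up_indep c.1.2.1 c.1.2.2 (hind _ _ c.2.2.1 c.2.2.2.2.1 c.2.2.2.2.2)) W hW1 hW2
    (fun c p t => (places c.1.1 p : ℝ) * (p : ℝ) ^ (1 / 2 : ℝ)) (fun c => c.1.1.natDegree + 1) (fun c => by positivity)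
    (by
      intro c p hp h2 t
      have h1 : ((places c.1.1 p : ℕ) : ℝ) ≤ c.1.1.natDegree := by exact_mod_cast places_le c.2.1 p hp
      rw [abs_of_nonneg (by positivity)]
      have h3 : (0 : ℝ) ≤ (p : ℝ) ^ (1 / 2 : ℝ) := by positivity
      apply mul_le_mul_of_nonneg_right _ h3
      linarith)
  refine ⟨E, hE1, fun α hα hαE h f q hh hf ho hd hq => ?_⟩
  obtain ⟨i₁, hi₁⟩ := hE2 α hα hαE ⟨(h, f, q), hh, hf, ho, hd, hq⟩
  -- absorbing constants
  obtain ⟨x₀, hx₀⟩ : ∃ x₀ : ℝ, ∀ x : ℝ, x₀ ≤ x → 2 * (x : ℝ) ^ (1 / 2 + δ / 2) +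
      2 * ((h.natDegree + 1) * (x : ℝ) ^ (1 / 2 : ℝ) * Real.log x) ≤ (x : ℝ) ^ (1 / 2 + δ) := by
    have h1 := (isLittleO_log_rpow_atTop (show (0 : ℝ) < δ / 2 by positivity)).bound (show (0 : ℝ) < 1 by norm_num)
    have h2 : Filter.Tendsto (fun x : ℝ => x ^ (δ / 2)) Filter.atTop Filter.atTop := tendsto_rpow_atTop (by positivity)
    have h3 := h2.eventually_ge_atTop (2 + 2 * ((h.natDegree : ℝ) + 1))
    obtain ⟨x₀, hx₀⟩ := Filter.eventually_atTop.1 (h1.and (h3.and (Filter.eventually_ge_atTop (1 : ℝ))))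
    refine ⟨x₀, fun x hx => ?_⟩
    obtain ⟨h4, h5, h6⟩ := hx₀ x hx
    have hx0 : 0 < x := by linarith
    rw [one_mul, Real.norm_eq_abs, Real.norm_eq_abs, abs_of_nonneg (Real.log_nonneg h6), abs_of_pos (Real.rpow_pos_of_pos hx0 _)] at h4
    have e1 : x ^ (1 / 2 + δ / 2) = x ^ (1 / 2 : ℝ) * x ^ (δ / 2) := Real.rpow_add hx0 _ _
    have e2 : x ^ (1 / 2 + δ) = x ^ (1 / 2 : ℝ) * (x ^ (δ / 2) * x ^ (δ / 2)) := by
      rw [← Real.rpow_add hx0, ← Real.rpow_add hx0]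
      congr 1
      ring
    rw [e1, e2]
    have h7 : 0 < x ^ (1 / 2 : ℝ) := Real.rpow_pos_of_pos hx0 _
    have h8 : 0 < x ^ (δ / 2) := Real.rpow_pos_of_pos hx0 _
    calc 2 * (x ^ (1 / 2 : ℝ) * x ^ (δ / 2)) + 2 * ((h.natDegree + 1) * x ^ (1 / 2 : ℝ) * Real.log x)
        ≤ 2 * (x ^ (1 / 2 : ℝ) * x ^ (δ / 2)) + 2 * ((h.natDegree + 1) * x ^ (1 / 2 : ℝ) * x ^ (δ / 2)) := by gcongr
      _ = x ^ (1 / 2 : ℝ) * ((2 + 2 * ((h.natDegree : ℝ) + 1)) * x ^ (δ / 2)) := by ring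
      _ ≤ x ^ (1 / 2 : ℝ) * (x ^ (δ / 2) * x ^ (δ / 2)) := by gcongr
  obtain ⟨i₂, hi₂⟩ := Pool.Agent.X35.GV.log_large hv1 hτ hθ hv α hα x₀ C hC
  refine ⟨max i₁ i₂, fun i hi n hn x hx1 hx2 σ hσ => ?_⟩
  have hlarge := hi₂ i (le_trans (le_max_right _ _) hi) n hn
  have hxx : x₀ ≤ x := hlarge.trans hx1
  obtain ⟨hx3, hS⟩ := hi₁ i (le_trans (le_max_left _ _) hi) n hn x hx1 hx2
  beta_reduce at hS
  have hub : ∀ p : ℕ, p.Prime → ∀ t : Fin 1 → ZMod p, |(fun (p : ℕ) (_ : Fin 1 → ZMod p) => (places h p : ℝ) * (p : ℝ) ^ (1 / 2 : ℝ)) p t| ≤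
      (h.natDegree + 1) * (p : ℝ) ^ (1 / 2 : ℝ) := by
    intro p hp t
    have h1 : ((places h p : ℕ) : ℝ) ≤ h.natDegree := by exact_mod_cast places_le hh p hp
    beta_reduce
    rw [abs_of_nonneg (by positivity)]
    have h3 : (0 : ℝ) ≤ (p : ℝ) ^ (1 / 2 : ℝ) := by positivity
    apply mul_le_mul_of_nonneg_right _ h3
    linarith
  have hK : ∀ p ∈ Pool.Agent.X35.GV.op x, |Pool.Agent.X35.GV.tot p (up f) (up q) (fun p _ => (places h p : ℝ) * (p : ℝ) ^ (1 / 2 : ℝ)) n *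
      Real.log p| ≤ (h.natDegree + 1) * (x : ℝ) ^ (1 / 2 : ℝ) * Real.log x := by
    intro p hp
    obtain ⟨q1, q2, q3, q4, q5⟩ := Pool.Agent.X35.GV.op_log hp
    rw [Pool.Agent.X35.GV.mem_op] at hp
    have hp0 : (0 : ℝ) < p := by linarith
    have h1 := Pool.Agent.X35.GV.tot_abs p hp.2.1 (up f) (up q) (fun p _ => (places h p : ℝ) * (p : ℝ) ^ (1 / 2 : ℝ)) _ (hub p hp.2.1) n
    rw [abs_mul, abs_of_pos q3]
    have h3 : (p : ℝ) ^ (1 / 2 : ℝ) ≤ (x : ℝ) ^ (1 / 2 : ℝ) := Real.rpow_le_rpow hp0.le q2 (by norm_num)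
    calc _ ≤ ((h.natDegree + 1) * (p : ℝ) ^ (1 / 2 : ℝ)) * Real.log p := by gcongr
      _ ≤ _ := by gcongr
  have hfin := hW3 x (by omega) (fun p => Pool.Agent.X35.GV.tot p (up f) (up q) (fun p _ => (places h p : ℝ) * (p : ℝ) ^ (1 / 2 : ℝ)) n *
    Real.log p) _ _ (by
    have := Real.log_natCast_nonneg x
    positivity) hK hS σ hσ
  have hdd : dirichletSum h f q n x σ = -∑ p ∈ Pool.Agent.X35.GV.op x,
      ((Pool.Agent.X35.GV.tot p (up f) (up q) (fun p _ => (places h p : ℝ) * (p : ℝ) ^ (1 / 2 : ℝ)) n * Real.log p : ℝ) : ℂ) *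
        (p : ℂ) ^ (-(σ * Complex.I)) := by
    unfold dirichletSum
    rw [← sum_neg_distrib]
    refine sum_congr rfl fun p hp => ?_
    have hp' := Pool.Agent.X35.GV.mem_op.1 hp
    have h1 := trace_eq f q n p hp'.2.1 hp'.2.2 (places h p : ℝ)
    have h3 : Pool.Agent.X35.GV.tot p (up f) (up q) (fun p' _ => (places h p : ℝ) * (p' : ℝ) ^ (1 / 2 : ℝ)) n =
        Pool.Agent.X35.GV.tot p (up f) (up q) (fun p _ => (places h p : ℝ) * (p : ℝ) ^ (1 / 2 : ℝ)) n := by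
      have := Fact.mk hp'.2.1
      rw [Pool.Agent.X35.GV.tot_eq p hp'.2.1, Pool.Agent.X35.GV.tot_eq p hp'.2.1]
    rw [← h3, ← mul_assoc, h1, neg_mul]
    push_cast
    ring
  rw [hdd, norm_neg]
  exact hfin.trans (hx₀ x hxx)

end Pool.Agent.Results.MP_bf9450_nt.AllPencilsAllFields
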