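import Pool.Agent.X288.L2.Base
import Pool.Agent.X288.L2.Inst

/-!
# Rational elliptic curves over arbitrary number fields: the line `Re s = 3/2`

`E : y² = x³ + a x + b` is an elliptic curve over `ℚ` with a newform (`IsModular`; by the modularity
theorem this is every elliptic curve over `ℚ`, and for the quadratic twists of `X_0(11)` and `X_0(14)` it
is proved here), and `K` any number field, of degree `n`.  Let `r` be the number of orbits of the Galois
group on the pairs of embeddings of `K`.  The continuation of `L(E/K, s)` is not known in general.  The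
theorem says that on the boundary `Re s = 3/2` of the half plane of absolute convergence the orders
`m` of `L(E/K, s)` and `m₀` of `L(E/ℚ, s)` (which is not zero and has no pole on the line) satisfy
`(m - m₀)² ≤ r - 1` at the real point and `(m - m₀)² ≤ (r - 1)/2` at the other points, with strict
inequalities if `n` is large compared with `√r`.  So, for `n ≥ 4`, the orders are equal at all points if the
Galois group acts doubly transitively (`r = 2`; for example the groups `S_n`, `A_n`, `PSL₂(q)`, the Mathieu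
groups), and at all non-real points if `r = 3`.

The proof uses the theorem of Rankin and Selberg for the newform (the mean of `a_p²/p` is one) and
Hasse's bound.
-/

set_option autoImplicit false

namespace Pool.Agent.Results.MP_bf9450_nt.BaseChangeOrbits

open NumberField IsDedekindDomain Filter Topology
open Pool.Agent.X288.L2 (EC TwoTrans pairOrbits kappa₂)
open Pool.Agent.TH322.BC.Edge (MinimalModels size HasOrder LimsupLE)
open Pool.Agent.Y722.EP (IsModular)

/-- **Base change of a modular elliptic curve.**  Let `E : y² = x³ + a x + b` be a modular elliptic curve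
over `ℚ`, `K` a number field of degree `n`, `r = pairOrbits ℚ K`, `V₀` and `V` local minimal models of `E`
over `ℚ` and over `K`, `τ` a real number, and `κ = 1` if `τ = 0`, `κ = 1/2` if `τ ≠ 0`.
1. `limsup (log |L(E/K, 3/2 + iτ + ε)| / log(1/ε))² ≤ κ r` as `ε → 0+`, strictly if `4 κ r < n²`, and
`m² ≤ κ r`, strictly if `4 κ r < n²`, for the order `m` of `L(E/K, s)` at `3/2 + iτ`, if there is a
meromorphic continuation to a neighbourhood of this point.
2. `limsup (log |L(E/K, s) / L(E/ℚ, s)| / log(1/ε))² ≤ κ (r - 1)` at `s = 3/2 + iτ + ε`, strictly if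
`4 κ (r - 1) < (n - 1)²`, and `(m - m₀)² ≤ κ (r - 1)`, strictly if `4 κ (r - 1) < (n - 1)²`, for the orders of
`L(E/K, s)` and `L(E/ℚ, s)`, if both functions have continuations.
3. In particular, if the Galois group acts doubly transitively on the embeddings of `K` and `n ≥ 4`, then
`m = m₀` for all `τ`.
The quadratic twists of `X_0(11)` and `X_0(14)` are modular. -/
theorem result :
    (∀ a b : ℤ, 4 * a ^ 3 + 27 * b ^ 2 ≠ 0 → IsModular a b →
      ∀ (K : Type) [Field K] [NumberField K] [Algebra ℚ K]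
        (V₀ : HeightOneSpectrum (𝓞 ℚ) → WeierstrassCurve (𝓞 ℚ))
        (V : HeightOneSpectrum (𝓞 K) → WeierstrassCurve (𝓞 K)),
        MinimalModels (EC ℚ a b) V₀ → MinimalModels ((EC ℚ a b).map (algebraMap ℚ K)) V →
        ∀ τ : ℝ,
        ((∀ η : ℝ, 0 < η → ∀ᶠ ε : ℝ in 𝓝[>] 0,
            size V τ ε ^ 2 ≤ kappa₂ τ * pairOrbits ℚ K + η) ∧
          (4 * (kappa₂ τ * pairOrbits ℚ K) < (Module.finrank ℚ K : ℝ) ^ 2 →
            ∃ B : ℝ, 0 ≤ B ∧ B ^ 2 < kappa₂ τ * pairOrbits ℚ K ∧ LimsupLE (size V τ) B) ∧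
          ∀ m : ℤ, HasOrder V τ m →
            (m : ℝ) ^ 2 ≤ kappa₂ τ * pairOrbits ℚ K ∧
            (4 * (kappa₂ τ * pairOrbits ℚ K) < (Module.finrank ℚ K : ℝ) ^ 2 →
              (m : ℝ) ^ 2 < kappa₂ τ * pairOrbits ℚ K)) ∧
        ((∀ η : ℝ, 0 < η → ∀ᶠ ε : ℝ in 𝓝[>] 0,
            (size V τ ε - size V₀ τ ε) ^ 2 ≤ kappa₂ τ * (pairOrbits ℚ K - 1) + η) ∧
          (4 * (kappa₂ τ * (pairOrbits ℚ K - 1)) < ((Module.finrank ℚ K : ℝ) - 1) ^ 2 →
            ∃ B : ℝ, 0 ≤ B ∧ B ^ 2 < kappa₂ τ * (pairOrbits ℚ K - 1) ∧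
              LimsupLE (fun ε => size V τ ε - size V₀ τ ε) B) ∧
          ∀ m₀ m : ℤ, HasOrder V₀ τ m₀ → HasOrder V τ m →
            ((m : ℝ) - m₀) ^ 2 ≤ kappa₂ τ * (pairOrbits ℚ K - 1) ∧
            (4 * (kappa₂ τ * (pairOrbits ℚ K - 1)) < ((Module.finrank ℚ K : ℝ) - 1) ^ 2 →
              ((m : ℝ) - m₀) ^ 2 < kappa₂ τ * (pairOrbits ℚ K - 1))) ∧
        (TwoTrans ℚ K → 4 ≤ Module.finrank ℚ K →
          ∀ m₀ m : ℤ, HasOrder V₀ τ m₀ → HasOrder V τ m → m = m₀)) ∧
    ∀ g : ℤ, g ≠ 0 → IsModular (-13392 * g ^ 2) (-1080432 * g ^ 3) ∧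
      IsModular (5805 * g ^ 2) (-285714 * g ^ 3) := by
  refine ⟨fun a b hab hmod K _ _ _ V₀ V hV₀ hV τ => ⟨?_, ?_, fun h2 hn => ?_⟩,
    fun g hg => ⟨Pool.Agent.X288.L2.modular11 hg, Pool.Agent.X288.L2.modular14 hg⟩⟩
  · exact Pool.Agent.X288.L2.own_order hab hmod hV τ
  · exact Pool.Agent.X288.L2.base_change hab hmod hV₀ hV τ
  · exact (Pool.Agent.X288.L2.two_trans hab hmod h2 hn hV₀ hV τ).2

end Pool.Agent.Results.MP_bf9450_nt.BaseChangeOrbits
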