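import Pool.Agent.X22.KE2

/-!
# Elliptic curves over `ℚ` base changed to number fields: partial sums of the coefficients of the L-functions of almost all members of arbitrarily thin families

Nothing is used besides Mathlib in the statement.
-/

set_option autoImplicit false

namespace Pool.Agent.Results.MP_bf9450_nt.FewDigitCurvesFullSums

open Finset NumberField IsDedekindDomain Module

/-- The cosine of the Frobenius angle of `Y ^ 2 = X ^ 3 + s X + t` modulo `p`: `p` minus the number of the affine points over `ℤ/p`, divided by `2 √p`. -/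
noncomputable def cosine (p : ℕ) (s t : ZMod p) : ℝ :=
  (((p : ℤ) - Nat.card {P : ZMod p × ZMod p // P.2 ^ 2 = P.1 ^ 3 + s * P.1 + t} : ℤ) : ℝ) / (2 * Real.sqrt p)

/-- The Frobenius eigenvalue `e ^ (i θ)`, `cos θ = c`. -/
noncomputable def eigenvalue (c : ℝ) : ℂ := ⟨c, Real.sqrt (1 - c ^ 2)⟩

/-- The value modulo `p` of the linear form `∑ m_l a_l`. -/
def form {d : ℕ} (a : Fin d → ℤ) (p : ℕ) (m : Fin d → ℕ) : ZMod p := ∑ l, (m l : ZMod p) * (a l : ZMod p)

/-- The power series `1 / (1 - α T ^ f)`. -/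
noncomputable def factor (α : ℂ) (f : ℕ) : PowerSeries ℂ := PowerSeries.mk (fun j => if f ∣ j then α ^ (j / f) else 0)

/-- The degree of a prime `v` of a number field above the prime `p`: the exponent of `p` in the norm of `v`. -/
noncomputable def degree {K : Type} [Field K] [NumberField K] (v : HeightOneSpectrum (𝓞 K)) (p : ℕ) : ℕ := (Ideal.absNorm v.asIdeal).factorization p

/-- The two powers with exponent the degree of `v` of the Frobenius eigenvalues `e ^ (± i θ_p)` of `E : Y ^ 2 = X ^ 3 + a (m) X + b (m)` at `p`, multiplied by the parameters `u_{v, j}`. -/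
noncomputable def parameter {K : Type} [Field K] [NumberField K] {d R : ℕ} (a b : Fin d → ℤ) (u : HeightOneSpectrum (𝓞 K) → Fin R → ℂ) (p : ℕ)
    (v : HeightOneSpectrum (𝓞 K)) (m : Fin d → ℕ) (z : Fin R × Bool) : ℂ :=
  u v z.1 * (if z.2 then eigenvalue (cosine p (form a p m) (form b p m)) else (starRingEnd ℂ) (eigenvalue (cosine p (form a p m) (form b p m)))) ^ degree v p

/-- The product over the primes `v` of `K` above `p` of the Euler factors `∏ 1 / (1 - u_{v, j} e ^ (± i f_v θ_p) T ^ {f_v})`, `T = p ^ (-s)`. -/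
noncomputable def eulerFactor (K : Type) [Field K] [NumberField K] {d R : ℕ} (a b : Fin d → ℤ) (u : HeightOneSpectrum (𝓞 K) → Fin R → ℂ) (p : ℕ) (m : Fin d → ℕ) : PowerSeries ℂ :=
  ∏ᶠ v ∈ {v : HeightOneSpectrum (𝓞 K) | (p : 𝓞 K) ∈ v.asIdeal}, ∏ z, factor (parameter a b u p v m z) (degree v p)

/-- The coefficient of `n ^ (-s)` of the Euler product. -/
noncomputable def coefficient (K : Type) [Field K] [NumberField K] {d R : ℕ} (a b : Fin d → ℤ) (u : HeightOneSpectrum (𝓞 K) → Fin R → ℂ) (n : ℕ) (m : Fin d → ℕ) : ℂ :=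
  ∏ p ∈ n.primeFactors, PowerSeries.coeff (n.factorization p) (eulerFactor K a b u p m)

/-- The sum `∑ w (n) λ (n) n ^ (- i τ)` over the integers `n` with `M < n ≤ M'`, where the `λ (n)` are the coefficients. -/
noncomputable def partialSum (K : Type) [Field K] [NumberField K] {d R : ℕ} (a b : Fin d → ℤ) (u : HeightOneSpectrum (𝓞 K) → Fin R → ℂ) (m : Fin d → ℕ) (w : ℕ → ℂ) (τ : ℝ) (M M' : ℕ) : ℂ :=
  ∑ n ∈ Ioc M M', w n * coefficient K a b u n m * Complex.exp (((-(τ * Real.log n) : ℝ) : ℂ) * Complex.I)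

/-- The condition on the linear forms: for some `l₀`, `l₁` the variable `m_{l₀}` occurs (with coefficient `1`) only
in the form `a`, and `m_{l₁}` only in the form `b`. -/
def Free {d : ℕ} (a b : Fin d → ℤ) : Prop := ∃ l₀ l₁, a l₀ = 1 ∧ b l₀ = 0 ∧ a l₁ = 0 ∧ b l₁ = 1

/-- The digit number `i` (counted from the right, beginning with `0`) of `n` in base `b`. -/
def digit (b i n : ℕ) : ℕ := n / b ^ i % b

/-- The number which arises from the number `N` with at most `K` digits in base `b`, if for every `i ∈ S`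
the digit number `i` is replaced by `f i`. -/
def change (b K N : ℕ) (f : ℕ → ℕ) (S : Finset ℕ) : ℕ :=
  ∑ i ∈ range K, (if i ∈ S then f i else digit b i N) * b ^ i

open Classical in
/-- The number of the choices of `s l` of `K l` positions for all `l < d` for which the vector of the numbers obtained by
changing the digits of the `N l` at the chosen positions (according to `f l`) does not have the property `E`. -/
noncomputable def exceptions {d : ℕ} (b : ℕ) (K s N : Fin d → ℕ) (f : Fin d → ℕ → ℕ) (E : (Fin d → ℕ) → Prop) : ℕ :=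
  ((Fintype.piFinset (fun l => powersetCard (s l) (range (K l)))).filter
    (fun S => ¬ E (fun l => change b (K l) (N l) (f l) (S l)))).card

open Pool.Agent.X22.MT Pool.Agent.X22.KE

/-- **Elliptic curves over number fields.** Let a base `b ≥ 2`, integers `d, n ≥ 1`, `R ≥ 0`, `A ≥ 0` and `δ > 0` be given. There are
`c > 0` and `y₀` such that for all integers `r_l`, `K_l` (`l = 1, ..., d`), `y` with `2 r_l ≤ K_l` and `y ≥ y₀` the following holds.

Let `0 ≤ N_l < b ^ K_l` be arbitrary integers, prescribe for every position `j` a digit `f l j` different from the digit of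
`N_l` in base `b`, and let `Λ x` be for every `x` any set of at most `x ^ A` systems of a number field `F` of degree at most `n`, linear forms `a`, `b` with integer coefficients in `d` variables which satisfy
`Free`, complex numbers `u_{v, j}` of absolute value at most `1` for the primes `v` of `F` and `j = 1, ..., R`, and a function `w` on the integers with `|w (n)| ≤ 1`.
If one chooses `r_l` of the `K_l` positions and replaces the digits of `N_l` at these positions, then for all but at most a proportion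
`1 / y ^ A` of the choices the vector `m` obtained has the following property: for all integers `x` with
`y ≤ x ≤ exp (c r_l)` for all `l`, all systems from `Λ x`, all real `τ` with `|τ| ≤ x ^ A` and all `M < M' ≤ x` we have
`|∑ w (n) λ (n) n ^ (- i τ)| ≤ x ^ (1 / 2 + δ)`, where the sum runs over the integers `n` with `M < n ≤ M'` and the `λ (n)` are the coefficients of the L-function over `F` of the curve
`E_m : Y ^ 2 = X ^ 3 + a (m) X + b (m)` over `ℚ`, twisted by the Euler product of degree `R` with the parameters `u_{v, j}`. -/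
theorem result (b d n R : ℕ) (hb : 2 ≤ b) (hd : 1 ≤ d) (δ : ℝ) (hδ : 0 < δ) (A : ℕ) :
    ∃ c : ℝ, 0 < c ∧ ∃ y₀ : ℕ,
    ∀ (K r : Fin d → ℕ) (y : ℕ), (∀ l, 2 * r l ≤ K l) → y₀ ≤ y →
    ∀ N : Fin d → ℕ, (∀ l, N l < b ^ K l) → ∀ f : Fin d → ℕ → ℕ, (∀ l j, f l j < b ∧ f l j ≠ digit b j (N l)) →
    ∀ (κ : Type) (F : κ → Type) [∀ i, Field (F i)] [∀ i, NumberField (F i)] (a' b' : κ → Fin d → ℤ) (u : ∀ i, HeightOneSpectrum (𝓞 (F i)) → Fin R → ℂ) (w : κ → ℕ → ℂ)
      (Λ : ℕ → Finset κ),
      (∀ i, finrank ℚ (F i) ≤ n) → (∀ i, Free (a' i) (b' i)) → (∀ i v j, ‖u i v j‖ ≤ 1) → (∀ i n, ‖w i n‖ ≤ 1) → (∀ x, (Λ x).card ≤ x ^ A) →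
      (exceptions b K r N f (fun m => ∀ x : ℕ, y ≤ x → (∀ l, (x : ℝ) ≤ Real.exp (c * r l)) → ∀ i ∈ Λ x,
        ∀ τ : ℝ, |τ| ≤ (x : ℝ) ^ A → ∀ M M' : ℕ, M' ≤ x → ‖partialSum (F i) (a' i) (b' i) (u i) m (w i) τ M M'‖ ≤ (x : ℝ) ^ (1 / 2 + δ)) : ℝ) ≤
        1 / (y : ℝ) ^ A * ∏ l, ((K l).choose (r l) : ℝ) := by
  classical
  obtain ⟨c, hc, y₀, h⟩ := euler_law b d (2 * R * n) hb hd δ hδ A A A
  have h2L : 2 ∣ (b * b).factorial := Nat.dvd_factorial (by norm_num) (by nlinarith)
  refine ⟨c, hc, y₀, fun K r y hrK hy N hN f hf κ F _ _ a' b' u w Λ hn hab hu hw hΛ => ?_⟩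
  have h2 := h K r y hrK hy N hN f hf κ Λ (fun x _ => hΛ x) (fun i => kfac (epar (a' i) (b' i) (u i))) (fun i => by
      obtain ⟨l₀, l₁, h1, h2, h3, h4⟩ := hab i
      exact epar_loc (a' i) (b' i) (u i) (hu i) n (hn i) l₀ l₁ h1 h2 h3 h4 _ h2L) w hw
    (fun m => ∀ x : ℕ, y ≤ x → (∀ l, (x : ℝ) ≤ Real.exp (c * r l)) → ∀ i ∈ Λ x,
        ∀ τ : ℝ, |τ| ≤ (x : ℝ) ^ A → ∀ M M' : ℕ, M' ≤ x → ‖partialSum (F i) (a' i) (b' i) (u i) m (w i) τ M M'‖ ≤ (x : ℝ) ^ (1 / 2 + δ))
    (fun m hm => hm)
  unfold exceptions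
  exact h2

end Pool.Agent.Results.MP_bf9450_nt.FewDigitCurvesFullSums
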