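import Pool.Agent.Y693.RF.ThmB

/-!
# Base change of elliptic curves to random number fields

`F` is a number field of degree `d` and `f` a monic polynomial of degree `n` over `𝓞_F`.  For an integer
`t` let `L = F(θ)` be the extension of degree `n` of `F` generated by a root `θ` of `f + t` (for a given
`f` it exists for all but `O(X^{1/2} log X)` of the integers `|t| ≤ X`, by Hilbert's irreducibility
theorem).  In the question `F = ℚ`, and these are number fields of degree `n` which are usually not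
solvable over `ℚ`, so that no continuation of the L-functions of elliptic curves over them is known.

Let `E : y² = x³ + a x + b` be an elliptic curve over `F`.  If the L-functions of `E` over `L` and over
`F` are entire and satisfy the Riemann hypothesis, then the quotient `L(E/L, s) / L(E/F, s)` is
holomorphic and not zero in the half-plane `Re s > 1`, and it is approximated there by the quotient of the
partial products of the two Euler products.  The theorem says that for almost all `t` this quotient of the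
partial products is, in every half-plane `Re s ≥ 1 + δ` and for `|Im s| ≤ X^c`, constant up to the factor
`1 + O(y^{-c})` between the lengths `y` and `x`, for all `(log X)^{1/c} ≤ y ≤ x ≤ X^c`; and that the
partial quotient of any length `y ≥ (log X)^{1/c}` approximates `L(E/L, s) / L(E/F, s)` itself up to the
distance `A / log X` of the edge `Re s = 3/2` of absolute convergence.  Apart from the `X^{1-c}` exceptions
`t` this holds for all extensions `L = F(θ)` and any `X^c` curves `E`, and for their twists by Artin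
representations of `F` (given by the eigenvalues `γ` of the Frobenius; `N = 1` and `γ = 1` for `E` itself),
uniformly in all number fields `F` of degree `d` and all `f` with coefficients up to `exp((log X)^B)`.
-/

set_option autoImplicit false

namespace Pool.Agent.Results.MP_bf9450_nt.RandomBaseChange

open NumberField IsDedekindDomain

/-- `a_v(E) = q_v - #{(x, y) : y² = x³ + a x + b}`, where `x`, `y` are in the residue field of `v`.  It
is the trace of the Frobenius at `v` for `E : y² = x³ + a x + b`, if the reduction is good. -/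
noncomputable def trace {K : Type} [Field K] [NumberField K] (a b : 𝓞 K)
    (v : HeightOneSpectrum (𝓞 K)) : ℂ :=
  (Ideal.absNorm v.asIdeal : ℂ) - Nat.card {P : (𝓞 K ⧸ v.asIdeal) × (𝓞 K ⧸ v.asIdeal) //
    P.2 ^ 2 = P.1 ^ 3 + Ideal.Quotient.mk v.asIdeal a * P.1 + Ideal.Quotient.mk v.asIdeal b}

/-- The prime `v` does not divide `6 (4 a³ + 27 b²)`; then `y² = x³ + a x + b` has good reduction at
`v`. -/
def IsGood {K : Type} [Field K] [NumberField K] (a b : 𝓞 K) (v : HeightOneSpectrum (𝓞 K)) : Prop :=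
  6 * (4 * a ^ 3 + 27 * b ^ 2) ∉ v.asIdeal

/-- The Euler factor at `v` of the twist of `y² = x³ + a x + b` by the representation with the
eigenvalues `γ v j` of the Frobenius at `v`: the product of the
`(1 - a_v γ q_v^{-s} + γ² q_v^{1-2s})⁻¹` over the `γ = γ v j`. -/
noncomputable def factor {K : Type} [Field K] [NumberField K] {N : ℕ} (a b : 𝓞 K)
    (γ : HeightOneSpectrum (𝓞 K) → Fin N → ℂ) (s : ℂ) (v : HeightOneSpectrum (𝓞 K)) : ℂ :=
  ∏ j, (1 - trace a b v * γ v j * (Ideal.absNorm v.asIdeal : ℂ) ^ (-s) +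
    γ v j ^ 2 * (Ideal.absNorm v.asIdeal : ℂ) ^ (1 - 2 * s))⁻¹

/-- The partial product over the good primes with `q_v ≤ x`. -/
noncomputable def partialProduct {K : Type} [Field K] [NumberField K] {N : ℕ} (a b : 𝓞 K)
    (γ : HeightOneSpectrum (𝓞 K) → Fin N → ℂ) (s : ℂ) (x : ℕ) : ℂ :=
  ∏ᶠ v ∈ {v : HeightOneSpectrum (𝓞 K) | IsGood a b v ∧ Ideal.absNorm v.asIdeal ≤ x}, factor a b γ s v

/-- The Euler product over all good primes. -/
noncomputable def eulerProduct {K : Type} [Field K] [NumberField K] {N : ℕ} (a b : 𝓞 K)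
    (γ : HeightOneSpectrum (𝓞 K) → Fin N → ℂ) (s : ℂ) : ℂ :=
  ∏' v : {v : HeightOneSpectrum (𝓞 K) // IsGood a b v}, factor a b γ s v

/-- The eigenvalues of the Frobenius at the primes `w` of `L` for the restriction of the representation
to `L`: at `w` above `v` they are the powers `γ ^ f(w|v)` of those at `v`, where `f(w|v)` is the residue
degree. -/
noncomputable def baseChange {F : Type} [Field F] [NumberField F] {N : ℕ} (L : Type) [Field L]
    [NumberField L] [Algebra F L] (γ : Ideal (𝓞 F) → Fin N → ℂ) (w : HeightOneSpectrum (𝓞 L))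
    (j : Fin N) : ℂ :=
  γ (w.asIdeal.comap (algebraMap (𝓞 F) (𝓞 L))) j ^
    Ideal.inertiaDeg' (w.asIdeal.comap (algebraMap (𝓞 F) (𝓞 L))) w.asIdeal

/-- The quotient of the partial products over `L` and over `F`, of length `x`. -/
noncomputable def partialQuotient {F : Type} [Field F] [NumberField F] {N : ℕ} (a b : 𝓞 F)
    (γ : Ideal (𝓞 F) → Fin N → ℂ) (L : Type) [Field L] [NumberField L] [Algebra F L] (s : ℂ)
    (x : ℕ) : ℂ :=
  partialProduct (algebraMap (𝓞 F) (𝓞 L) a) (algebraMap (𝓞 F) (𝓞 L) b) (baseChange L γ) s x /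
    partialProduct a b (fun v => γ v.asIdeal) s x

/-- The quotient of the Euler products over `L` and over `F`. -/
noncomputable def eulerQuotient {F : Type} [Field F] [NumberField F] {N : ℕ} (a b : 𝓞 F)
    (γ : Ideal (𝓞 F) → Fin N → ℂ) (L : Type) [Field L] [NumberField L] [Algebra F L] (s : ℂ) : ℂ :=
  eulerProduct (algebraMap (𝓞 F) (𝓞 L) a) (algebraMap (𝓞 F) (𝓞 L) b) (baseChange L γ) s /
    eulerProduct a b (fun v => γ v.asIdeal) s

/-- `L = F(θ)` is an extension of `F` of degree `deg f`, and `θ` is a root of `f + t`. -/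
def Generates {F : Type} [Field F] [NumberField F] {L : Type} [Field L] [NumberField L] [Algebra F L]
    (f : Polynomial (𝓞 F)) (t : ℤ) (θ : 𝓞 L) : Prop :=
  Polynomial.aeval θ (f + Polynomial.C (t : 𝓞 F)) = 0 ∧ Module.finrank F L = f.natDegree ∧
    Algebra.adjoin F {(θ : L)} = ⊤

/-- **Base change to random number fields.**  Let `d`, `n`, `N` be integers, `n ≥ 1`, `B` real and
`δ > 0`.  There is `c > 0`, and for every `η > 0` there are `A` and `X₀`, such that for all `X ≥ X₀`, all
number fields `F` of degree `d`, all monic polynomials `f` of degree `n` over `𝓞_F` with coefficients whose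
conjugates are at most `exp((log X)^B)`, and any `m ≤ X^c` curves `E_k : y² = x³ + a_k x + b_k` over `F`
with twists `γ_k`, the following holds for all integers `|t| ≤ X`, with at most `X^{1-c}` exceptions.  Let
`L = F(θ)` be any extension of `F` of degree `n` with `f(θ) = - t`, and let `Q_k(s; x)` be the quotient of
the partial products of length `x` for `E_k` over `L` and over `F`.  Then for all `k` and all `s` with
`|Im s| ≤ X^c`
* `|Q_k(s; x) / Q_k(s; y) - 1| ≤ y^{-c}` for all `(log X)^{1/c} ≤ y ≤ x ≤ X^c`, if `Re s ≥ 1 + δ`;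
* the quotient of the Euler products over `L` and over `F` is `(1 + ε) Q_k(s; y)` with `|ε| ≤ η`, for all
  `y ≥ (log X)^{1/c}`, if `Re s ≥ 3/2 + A / log X`. -/
theorem result (d n N : ℕ) (_ : 0 < n) (B δ : ℝ) (_ : 0 < δ) :
    ∃ c : ℝ, 0 < c ∧ ∀ η : ℝ, 0 < η → ∃ A : ℝ, ∃ X₀ : ℕ, ∀ X : ℕ, X₀ ≤ X →
      ∀ (F : Type) [Field F] [NumberField F], Module.finrank ℚ F = d →
      ∀ f : Polynomial (𝓞 F), f.Monic → f.natDegree = n →
      (∀ i, ∀ σ : F →+* ℂ, ‖σ (f.coeff i : F)‖ ≤ Real.exp ((Real.log X) ^ B)) →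
      ∀ m : ℕ, (m : ℝ) ≤ (X : ℝ) ^ c → ∀ (a b : Fin m → 𝓞 F) (γ : Fin m → Ideal (𝓞 F) → Fin N → ℂ),
        (∀ k v j, ‖γ k v j‖ ≤ 1) →
        ({t : ℤ | |t| ≤ X ∧ ¬ ∀ (L : Type) [Field L] [NumberField L] [Algebra F L] (θ : 𝓞 L),
          Generates f t θ → ∀ (k : Fin m) (s : ℂ), |s.im| ≤ (X : ℝ) ^ c →
            (1 + δ ≤ s.re → ∀ y x : ℕ, (Real.log X) ^ (1 / c) ≤ y → y ≤ x → (x : ℝ) ≤ (X : ℝ) ^ c →
              ‖partialQuotient (a k) (b k) (γ k) L s x / partialQuotient (a k) (b k) (γ k) L s y - 1‖ ≤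
                (y : ℝ) ^ (-c)) ∧
            (3 / 2 + A / Real.log X ≤ s.re → ∀ y : ℕ, (Real.log X) ^ (1 / c) ≤ y →
              ‖eulerQuotient (a k) (b k) (γ k) L s / partialQuotient (a k) (b k) (γ k) L s y - 1‖ ≤
                η)}.ncard : ℝ) ≤ (X : ℝ) ^ (1 - c) := by
  rename_i hn hδ
  obtain ⟨c, hc0, h⟩ := Pool.Agent.Y693.RF.thmA d n N hn B δ hδ
  refine ⟨c, hc0, fun η hη => ?_⟩
  obtain ⟨A, X₀, h⟩ := h η hη
  refine ⟨A, X₀, fun X hX F _ _ hF f hf hfn hcoef m hm a b γ hγ => ?_⟩
  have h1 := h X hX F hF f hf hfn hcoef m hm a b γ hγ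
  refine le_trans ?_ h1
  have hfin : {t : ℤ | |t| ≤ X ∧ ¬ ∀ (L : Type) [Field L] [NumberField L] [Algebra F L] (θ : 𝓞 L),
      Pool.Agent.Y693.RF.Gen (f + Polynomial.C (t : 𝓞 F)) θ → ∀ k,
        Pool.Agent.Y693.RF.A1 δ c X (a k) (b k) (γ k) L ∧
          Pool.Agent.Y693.RF.A2 η A c X (a k) (b k) (γ k) L}.Finite := by
    refine Set.Finite.subset (Set.finite_Icc (-(X : ℤ)) X) fun t ht => ?_
    have := abs_le.1 ht.1
    exact ⟨this.1, this.2⟩
  refine Nat.cast_le.2 (Set.ncard_le_ncard ?_ hfin)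
  rintro t ⟨ht1, ht2⟩
  refine ⟨ht1, fun hcon => ht2 ?_⟩
  intro L _ _ _ θ hθ k s hs
  obtain ⟨h5, h6⟩ := hcon L θ ⟨hθ.1, by rw [hθ.2.1, Polynomial.natDegree_add_C], hθ.2.2⟩ k
  exact ⟨fun hs1 y x hy hyx hx => h5 s hs1 hs y x hy hyx hx, fun hs1 y hy => h6 s hs1 hs y hy⟩

end Pool.Agent.Results.MP_bf9450_nt.RandomBaseChange
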